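import Pool.Agent.helper56.CT.SpecB

namespace CT
open Finset

theorem A3e_univ : (univ : Finset (Finset (Fin 3))) =
    {∅, {0}, {1}, {2}, {0, 1}, {0, 2}, {1, 2}, {0, 1, 2}} := by decide

theorem A3e_sum (f : Finset (Fin 3) → ZMod 2) : ∑ A : Finset (Fin 3), f A =
    f ∅ + f {0} + f {1} + f {2} + f {0, 1} + f {0, 2} + f {1, 2} + f {0, 1, 2} := by
  rw [A3e_univ]
  rw [Finset.sum_insert (by decide), Finset.sum_insert (by decide), Finset.sum_insert (by decide),
    Finset.sum_insert (by decide), Finset.sum_insert (by decide), Finset.sum_insert (by decide),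
    Finset.sum_insert (by decide), Finset.sum_singleton]
  ring

section
variable {E N : Type} [Fintype E] [Fintype N] [DecidableEq E] [DecidableEq N]

omit [Fintype E] in
theorem A3e_set1 (T : Finset E) (i : Fin 3) :
    T.disjSum {i} = T.map Function.Embedding.inl ∪ {Sum.inr i} := by
  ext b
  rcases b with b | b <;> simp

omit [Fintype E] in
theorem A3e_set2 (T : Finset E) (i j : Fin 3) :
    T.disjSum {i, j} = T.map Function.Embedding.inl ∪ {Sum.inr i, Sum.inr j} := by
  ext b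
  rcases b with b | b <;> simp

theorem A3e_compl (T : Finset E) (A : Finset (Fin 3)) :
    (T.disjSum A)ᶜ = Tᶜ.disjSum Aᶜ := by
  ext b
  rcases b with b | b <;> simp

open Classical in
theorem A3e_split (inc : E ⊕ Fin 3 → Option N → ZMod 2) (x : E → ZMod 2) (α : Fin 3 → ZMod 2) :
    PsiLT inc (Sum.elim x α) = ∑ T : Finset E, ∑ A : Finset (Fin 3),
      if LT inc (T.disjSum A) then (∏ a ∈ Tᶜ, x a) * ∏ i ∈ Aᶜ, α i else 0 := by
  unfold PsiLT
  rw [Finset.sum_filter, ← Equiv.sum_comp (Finset.sumEquiv (α := E) (β := Fin 3)).symm.toEquiv,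
    Fintype.sum_prod_type]
  refine Finset.sum_congr rfl (fun T _ => Finset.sum_congr rfl (fun A _ => ?_))
  show (if LT inc (T.disjSum A) then ∏ a ∈ (T.disjSum A)ᶜ, Sum.elim x α a else 0) = _
  rw [A3e_compl, Finset.prod_disjSum]
  simp only [Sum.elim_inl, Sum.elim_inr]

end

theorem A3e (hA : A3a_stmt) (hB : A3b_stmt) : A3e_stmt := by
  classical
  intro E N _ _ _ _ inc a hTE hinj
  refine ⟨fun x => ∑ T : Finset E, if LT (incF inc a) (T.disjSum {0, 1, 2}) then
    ∏ a ∈ Tᶜ, x a else 0, ?_⟩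
  intro x α
  have h01 : (0 : Fin 3) ≠ 1 := by decide
  have h02 : (0 : Fin 3) ≠ 2 := by decide
  have h12 : (1 : Fin 3) ≠ 2 := by decide
  have hc0 : ({0} : Finset (Fin 3))ᶜ = {1, 2} := by decide
  have hc1 : ({1} : Finset (Fin 3))ᶜ = {0, 2} := by decide
  have hc2 : ({2} : Finset (Fin 3))ᶜ = {0, 1} := by decide
  have hc01 : ({0, 1} : Finset (Fin 3))ᶜ = {2} := by decide
  have hc02 : ({0, 2} : Finset (Fin 3))ᶜ = {1} := by decide
  have hc12 : ({1, 2} : Finset (Fin 3))ᶜ = {0} := by decide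
  have hc : ({0, 1, 2} : Finset (Fin 3))ᶜ = ∅ := by decide
  rw [A3e_split]
  have hP : PsiLT inc x = ∑ T : Finset E, if LT inc T then ∏ a ∈ Tᶜ, x a else 0 := by
    unfold PsiLT
    rw [Finset.sum_filter]
  have hh : ∀ g, hT inc g x = ∑ T : Finset E, if KTn inc g T then ∏ a ∈ Tᶜ, x a else 0 := by
    intro g
    unfold hT
    rw [Finset.sum_filter]
  rw [hP, hh, hh, hh, Finset.sum_mul, Finset.sum_mul, Finset.sum_mul, Finset.sum_mul,
    ← Finset.sum_add_distrib, ← Finset.sum_add_distrib, ← Finset.sum_add_distrib,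
    ← Finset.sum_add_distrib]
  refine Finset.sum_congr rfl (fun T _ => ?_)
  rw [A3e_sum, A3e_set1, A3e_set1, A3e_set1, A3e_set2, A3e_set2, A3e_set2,
    Finset.disjSum_empty, hc0, hc1, hc2, hc01, hc02, hc12, hc]
  rw [if_neg (hA E N inc a T 0 hTE).1]
  simp only [(hA E N inc a T _ hTE).2.1, hB E N inc a T 0 1 hTE hinj h01,
    hB E N inc a T 0 2 hTE hinj h02, hB E N inc a T 1 2 hTE hinj h12]
  rw [Finset.prod_pair h12, Finset.prod_pair h02, Finset.prod_pair h01, Finset.prod_singleton,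
    Finset.prod_singleton, Finset.prod_singleton, Finset.prod_empty]
  split_ifs <;> ring

end CT
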