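import Pool.Agent.helper56.CT.SpecA

namespace CT
open Finset

section
variable {D : Type*} [DecidableEq D]

def D1_J (e : D → D) : List (D × D) → (D → D)
  | [] => e
  | p :: l => D1_J (join e p.1 p.2) l

def D1_l (e : D → D) : List (D × D) → ℕ
  | [] => 0
  | p :: l => lp e p.1 p.2 + D1_l (join e p.1 p.2) l

def D1_pts (l : List (D × D)) : List D := l.flatMap fun p => [p.1, p.2]

theorem D1_J_append (e : D → D) (l l' : List (D × D)) :
    D1_J e (l ++ l') = D1_J (D1_J e l) l' := by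
  induction l generalizing e with
  | nil => rfl
  | cons p l ih => exact ih _

theorem D1_l_append (e : D → D) (l l' : List (D × D)) :
    D1_l e (l ++ l') = D1_l e l + D1_l (D1_J e l) l' := by
  induction l generalizing e with
  | nil => simp [D1_l, D1_J]
  | cons p l ih =>
    show lp e p.1 p.2 + D1_l (join e p.1 p.2) (l ++ l') = _
    rw [ih]
    show _ = lp e p.1 p.2 + D1_l (join e p.1 p.2) l + D1_l (D1_J (join e p.1 p.2) l) l'
    rw [add_assoc]

theorem D1_ne (e : D → D) (he : ∀ d, e (e d) = d) {x y z : D} (hxy : x ≠ y) (hzx : z ≠ x)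
    (hzy : z ≠ y) (hz : e z ≠ z) : join e x y z ≠ z := by
  unfold join
  rw [if_neg (by tauto)]
  by_cases h1 : e z = x
  · rw [if_pos h1]
    intro h2
    apply hxy
    rw [← h1, ← h2, he]
  · rw [if_neg h1]
    by_cases h2 : e z = y
    · rw [if_pos h2]
      intro h3
      apply hxy
      rw [← h2, ← h3, he]
    · rw [if_neg h2]
      exact hz

/-- the conditions -/
def D1_ok (e : D → D) (l : List (D × D)) : Prop :=
  (∀ d, e (e d) = d) ∧ (D1_pts l).Nodup ∧ ∀ z ∈ D1_pts l, e z ≠ z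

theorem D1_ok_cons (e : D → D) (p : D × D) (l : List (D × D)) (h : D1_ok e (p :: l)) :
    p.1 ≠ p.2 ∧ e p.1 ≠ p.1 ∧ e p.2 ≠ p.2 ∧ D1_ok (join e p.1 p.2) l := by
  obtain ⟨he, hn, ha⟩ := h
  have hp : D1_pts (p :: l) = p.1 :: p.2 :: D1_pts l := rfl
  rw [hp] at hn ha
  rw [List.nodup_cons, List.nodup_cons] at hn
  obtain ⟨h1, h2, h3⟩ := hn
  have hne : p.1 ≠ p.2 := by
    intro h
    apply h1
    rw [h]
    exact List.mem_cons_self
  have ha1 : e p.1 ≠ p.1 := ha _ List.mem_cons_self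
  have ha2 : e p.2 ≠ p.2 := ha _ (List.mem_cons_of_mem _ List.mem_cons_self)
  refine ⟨hne, ha1, ha2, join_invol e he hne ha1 ha2, h3, ?_⟩
  intro z hz
  refine D1_ne e he hne ?_ ?_ (ha z (List.mem_cons_of_mem _ (List.mem_cons_of_mem _ hz)))
  · rintro rfl
    exact h1 (List.mem_cons_of_mem _ hz)
  · rintro rfl
    exact h2 hz

omit [DecidableEq D] in
theorem D1_ok_perm (e : D → D) {l l' : List (D × D)} (hp : l.Perm l') (h : D1_ok e l) :
    D1_ok e l' := by
  obtain ⟨he, hn, ha⟩ := h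
  have hpp : (D1_pts l).Perm (D1_pts l') := hp.flatMap_right _
  refine ⟨he, hpp.nodup_iff.1 hn, ?_⟩
  intro z hz
  exact ha z (hpp.mem_iff.2 hz)

theorem D1_perm {l l' : List (D × D)} (hp : l.Perm l') : ∀ e : D → D, D1_ok e l →
    D1_J e l = D1_J e l' ∧ D1_l e l = D1_l e l' := by
  induction hp with
  | nil => intro e _; exact ⟨rfl, rfl⟩
  | cons p _ ih =>
    intro e he
    obtain ⟨_, _, _, h⟩ := D1_ok_cons e p _ he
    obtain ⟨h1, h2⟩ := ih _ h
    refine ⟨h1, ?_⟩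
    show lp e p.1 p.2 + _ = lp e p.1 p.2 + _
    rw [h2]
  | swap p q l =>
    intro e he
    obtain ⟨h1, h2, h3, h4⟩ := D1_ok_cons e q _ he
    obtain ⟨g1, _, _, _⟩ := D1_ok_cons _ p _ h4
    have hn := he.2.1
    have ha := he.2.2
    have hpp : D1_pts (q :: p :: l) = q.1 :: q.2 :: p.1 :: p.2 :: D1_pts l := rfl
    rw [hpp] at hn ha
    simp only [List.nodup_cons, List.mem_cons, not_or] at hn
    have a1 : e p.1 ≠ p.1 := ha _ (by simp)
    have a2 : e p.2 ≠ p.2 := ha _ (by simp)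
    have c1 := join_comm e he.1 h1 hn.1.2.1 hn.1.2.2.1 hn.2.1.1 hn.2.1.2.1 g1 h2 h3 a1 a2
    have c2 := lp_comm e he.1 h1 hn.1.2.1 hn.1.2.2.1 hn.2.1.1 hn.2.1.2.1 g1 h2 h3 a1 a2
    refine ⟨?_, ?_⟩
    · show D1_J (join (join e q.1 q.2) p.1 p.2) l = D1_J (join (join e p.1 p.2) q.1 q.2) l
      rw [c1]
    · show lp e q.1 q.2 + (lp (join e q.1 q.2) p.1 p.2 +
        D1_l (join (join e q.1 q.2) p.1 p.2) l) = lp e p.1 p.2 + (lp (join e p.1 p.2) q.1 q.2 +
        D1_l (join (join e p.1 p.2) q.1 q.2) l)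
      rw [c1, ← add_assoc, c2, add_assoc]
  | trans hp1 _ ih1 ih2 =>
    intro e he
    obtain ⟨h1, h2⟩ := ih1 e he
    obtain ⟨h3, h4⟩ := ih2 e (D1_ok_perm e hp1 he)
    exact ⟨h1.trans h3, h2.trans h4⟩

theorem D1_last (e : D → D) (A : Finset D) (h : Act A e) (p q r s : D) (hpq : p ≠ q)
    (hpr : p ≠ r) (_ : p ≠ s) (hqr : q ≠ r) (_ : q ≠ s)
    (hA : ∀ z, z ∈ A ↔ z = p ∨ z = q ∨ z = r ∨ z = s) :
    lp (join e p q) r s = 1 := by
  have hp : p ∈ A := (hA p).2 (Or.inl rfl)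
  have hq : q ∈ A := (hA q).2 (Or.inr (Or.inl rfl))
  have hr : r ∈ A := (hA r).2 (by tauto)
  obtain ⟨h1, h2⟩ := join_act h hp hq hpq
  have hr' : r ∈ (A.erase p).erase q := by
    rw [Finset.mem_erase, Finset.mem_erase]
    exact ⟨hqr.symm, hpr.symm, hr⟩
  have h3 : join e p q r ≠ r := (h2 r).2 hr'
  have h4 : join e p q r ∈ (A.erase p).erase q := by
    rw [← h2, h1]
    exact h3.symm
  rw [Finset.mem_erase, Finset.mem_erase, hA] at h4
  have h5 : join e p q r = s := by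
    obtain ⟨b1, b2, b3⟩ := h4
    rcases b3 with b3 | b3 | b3 | b3
    · exact absurd b3 b2
    · exact absurd b3 b1
    · exact absurd b3 h3
    · exact b3
  unfold lp
  rw [if_pos h5]

theorem D1_b4 (e : D → D) (A : Finset D) (h : Act A e) (p q r s : D) (hpq : p ≠ q)
    (hpr : p ≠ r) (hps : p ≠ s) (hqr : q ≠ r) (hqs : q ≠ s) (hrs : r ≠ s)
    (hA : ∀ z, z ∈ A ↔ z = p ∨ z = q ∨ z = r ∨ z = s) (x : ℤ) :
    x ^ (lp e p q + lp (join e p q) r s) + x ^ (lp e p r + lp (join e p r) q s) +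
      x ^ (lp e p s + lp (join e p s) q r) = x ^ 2 + 2 * x := by
  rw [D1_last e A h p q r s hpq hpr hps hqr hqs hA,
    D1_last e A h p r q s hpr hpq hps hqr.symm hrs (fun z => by rw [hA]; tauto),
    D1_last e A h p s q r hps hpq hpr hqs.symm hrs.symm (fun z => by rw [hA]; tauto)]
  have hp : e p ≠ p := (h.2 p).2 ((hA p).2 (Or.inl rfl))
  have h4 : e p ∈ A := by
    rw [← h.2, h.1]
    exact hp.symm
  rw [hA] at h4
  unfold lp
  rcases h4 with b | b | b | b
  · exact absurd b hp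
  · rw [if_pos b, if_neg (by rw [b]; exact hqr), if_neg (by rw [b]; exact hqs)]
    ring
  · rw [if_pos b, if_neg (by rw [b]; exact hqr.symm), if_neg (by rw [b]; exact hrs)]
    ring
  · rw [if_pos b, if_neg (by rw [b]; exact hqs.symm), if_neg (by rw [b]; exact hrs.symm)]
    ring

end

section
variable {V : Type} [DecidableEq V]

theorem D1_pr (t : Fin 3) : [(pr t).1, (pr t).2.1, (pr t).2.2.1, (pr t).2.2.2].Nodup := by
  fin_cases t <;> decide

theorem D1_pr4 (t : Fin 3) (i : Fin 4) :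
    i = (pr t).1 ∨ i = (pr t).2.1 ∨ i = (pr t).2.2.1 ∨ i = (pr t).2.2.2 := by
  fin_cases t <;> fin_cases i <;> decide

theorem D1_sm_act (A : Finset (V × Fin 4)) (e : V × Fin 4 → V × Fin 4) (h : Act A e) (u : V)
    (hu : ∀ i, (u, i) ∈ A) (t : Fin 3) : Act (A.filter fun z => z.1 ≠ u) (sm e u t) := by
  have hn := D1_pr t
  simp only [List.nodup_cons, List.mem_cons, not_or, List.not_mem_nil, not_false_eq_true,
    and_true] at hn
  obtain ⟨⟨n1, n2, n3⟩, ⟨n4, n5⟩, n6⟩ := hn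
  have hne : ∀ {i j : Fin 4}, i ≠ j → (u, i) ≠ (u, j) := by
    intro i j hij h
    exact hij (congrArg Prod.snd h)
  have h1 := join_act h (hu (pr t).1) (hu (pr t).2.1) (hne n1)
  have h2 := join_act h1 (x := (u, (pr t).2.2.1)) (y := (u, (pr t).2.2.2)) (by
    rw [Finset.mem_erase, Finset.mem_erase]
    exact ⟨(hne n4).symm, (hne n2).symm, hu _⟩) (by
    rw [Finset.mem_erase, Finset.mem_erase]
    exact ⟨(hne n5).symm, (hne n3).symm, hu _⟩) (hne n6.1)
  have h3 : ((((A.erase (u, (pr t).1)).erase (u, (pr t).2.1)).erase (u, (pr t).2.2.1)).erase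
      (u, (pr t).2.2.2)) = A.filter fun z => z.1 ≠ u := by
    ext z
    obtain ⟨w, i⟩ := z
    simp only [Finset.mem_erase, Finset.mem_filter, ne_eq, Prod.mk.injEq]
    have := D1_pr4 t i
    tauto
  rw [h3] at h2
  exact h2

theorem D1_step (x : ℤ) (u : V) (L : List V) (e : V × Fin 4 → V × Fin 4)
    (he : ∀ d, e (e d) = d) (hue : ∀ i, e (u, i) ≠ (u, i)) (v : Fin 6 → V × Fin 4)
    (hv : Function.Injective v) (hvu : ∀ k, (v k).1 ≠ u) (hve : ∀ k, e (v k) ≠ v k)
    (i0 i1 i2 i3 i4 i5 : Fin 6) (hi : [i0, i1, i2, i3, i4, i5].Nodup) :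
    T3 x (u :: L) e (v i0) (v i1) (v i2) (v i3) (v i4) (v i5) =
      ∑ t : Fin 3, x ^ ls e u t * T3 x L (sm e u t) (v i0) (v i1) (v i2) (v i3) (v i4) (v i5) := by
  have hnd : [v i0, v i1, v i2, v i3, v i4, v i5].Nodup := (hi.map hv :)
  unfold T3
  rw [Z, Finset.mul_sum]
  refine Finset.sum_congr rfl (fun t _ => ?_)
  set l1 : List ((V × Fin 4) × (V × Fin 4)) := [(v i0, v i1), (v i2, v i3), (v i4, v i5)] with hl1
  set l2 : List ((V × Fin 4) × (V × Fin 4)) := [((u, (pr t).1), (u, (pr t).2.1)),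
    ((u, (pr t).2.2.1), (u, (pr t).2.2.2))] with hl2
  have j1 : ∀ e : V × Fin 4 → V × Fin 4,
    join3 e (v i0) (v i1) (v i2) (v i3) (v i4) (v i5) = D1_J e l1 := fun _ => rfl
  have j2 : ∀ e : V × Fin 4 → V × Fin 4, sm e u t = D1_J e l2 := fun _ => rfl
  have k1 : ∀ e : V × Fin 4 → V × Fin 4,
    lp3 e (v i0) (v i1) (v i2) (v i3) (v i4) (v i5) = D1_l e l1 := by
    intro e
    show _ = lp e (v i0) (v i1) + (lp (join e (v i0) (v i1)) (v i2) (v i3) +
      (lp (join (join e (v i0) (v i1)) (v i2) (v i3)) (v i4) (v i5) + 0))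
    unfold lp3
    ring
  have k2 : ∀ e : V × Fin 4 → V × Fin 4, ls e u t = D1_l e l2 := fun _ => rfl
  rw [j1, j1, j2, j2, k1, k1, k2, k2]
  have hok : D1_ok e (l1 ++ l2) := by
    have hpts : D1_pts (l1 ++ l2) = [v i0, v i1, v i2, v i3, v i4, v i5] ++
      [(pr t).1, (pr t).2.1, (pr t).2.2.1, (pr t).2.2.2].map (fun i => (u, i)) := rfl
    refine ⟨he, ?_, ?_⟩
    · rw [hpts]
      refine List.Nodup.append hnd ((D1_pr t).map (fun i j h => congrArg Prod.snd h)) ?_
      intro z hz hz'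
      rw [List.mem_map] at hz'
      obtain ⟨i, _, rfl⟩ := hz'
      have hz2 : (u, i) ∈ [i0, i1, i2, i3, i4, i5].map v := hz
      rw [List.mem_map] at hz2
      obtain ⟨k, _, hk⟩ := hz2
      apply hvu k
      rw [hk]
    · rw [hpts]
      intro z hz
      rw [List.mem_append] at hz
      rcases hz with hz | hz
      · have hz2 : z ∈ [i0, i1, i2, i3, i4, i5].map v := hz
        rw [List.mem_map] at hz2
        obtain ⟨k, _, rfl⟩ := hz2
        exact hve k
      · rw [List.mem_map] at hz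
        obtain ⟨i, _, rfl⟩ := hz
        exact hue i
  obtain ⟨p1, p2⟩ := D1_perm (List.perm_append_comm (l₁ := l1) (l₂ := l2)) e hok
  rw [D1_J_append, D1_J_append] at p1
  rw [D1_l_append, D1_l_append] at p2
  rw [p1, ← mul_assoc, ← mul_assoc, ← pow_add, ← pow_add, p2]

theorem D1_base (x : ℤ) (e : V × Fin 4 → V × Fin 4) (A : Finset (V × Fin 4)) (v : Fin 6 → V × Fin 4)
    (hv : Function.Injective v) (h : Act A e) (hA : ∀ z, z ∈ A ↔ ∃ k, z = v k)
    (i0 i1 i2 i3 i4 i5 : Fin 6) (hi : [i0, i1, i2, i3, i4, i5].Nodup) :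
    T3 x [] e (v i0) (v i1) (v i2) (v i3) (v i4) (v i5) +
    T3 x [] e (v i0) (v i1) (v i2) (v i4) (v i3) (v i5) +
    T3 x [] e (v i0) (v i1) (v i2) (v i5) (v i3) (v i4) =
      x ^ (lp e (v i0) (v i1)) * (x ^ 2 + 2 * x) := by
  have hi' := hi
  simp only [List.nodup_cons, List.mem_cons, not_or, List.not_mem_nil, not_false_eq_true,
    and_true] at hi
  obtain ⟨⟨a1, a2, a3, a4, a5⟩, ⟨a6, a7, a8, a9⟩, ⟨a10, a11, a12⟩, ⟨a13, a14⟩, a15⟩ := hi
  have hne : ∀ {i j : Fin 6}, i ≠ j → v i ≠ v j := fun hij h => hij (hv h)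
  have hall : ∀ k : Fin 6, k = i0 ∨ k = i1 ∨ k = i2 ∨ k = i3 ∨ k = i4 ∨ k = i5 := by
    have hcard : ([i0, i1, i2, i3, i4, i5] : List (Fin 6)).toFinset = univ := by
      apply Finset.eq_univ_of_card
      rw [List.toFinset_card_of_nodup hi']
      rfl
    intro k
    have hk : k ∈ ([i0, i1, i2, i3, i4, i5] : List (Fin 6)).toFinset := by
      rw [hcard]
      exact Finset.mem_univ k
    rw [List.mem_toFinset] at hk
    simpa using hk
  have hact := join_act h ((hA (v i0)).2 ⟨_, rfl⟩) ((hA (v i1)).2 ⟨_, rfl⟩) (hne a1)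
  have h4 := D1_b4 _ _ hact (v i2) (v i3) (v i4) (v i5) (hne a10) (hne a11) (hne a12)
    (hne a13) (hne a14) (hne a15.1) (by
      intro z
      rw [Finset.mem_erase, Finset.mem_erase, hA]
      constructor
      · rintro ⟨h1, h2, k, rfl⟩
        rcases hall k with rfl | rfl | rfl | rfl | rfl | rfl
        · exact absurd rfl h2
        · exact absurd rfl h1
        · tauto
        · tauto
        · tauto
        · tauto
      · rintro (rfl | rfl | rfl | rfl)
        · exact ⟨(hne a6).symm, (hne a2).symm, _, rfl⟩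
        · exact ⟨(hne a7).symm, (hne a3).symm, _, rfl⟩
        · exact ⟨(hne a8).symm, (hne a4).symm, _, rfl⟩
        · exact ⟨(hne a9).symm, (hne a5).symm, _, rfl⟩) x
  rw [← h4]
  unfold T3 lp3 Z
  ring

theorem D1_main (L : List V) : ∀ (e : V × Fin 4 → V × Fin 4) (v : Fin 6 → V × Fin 4),
    L.Nodup → Function.Injective v → (∀ k, (v k).1 ∉ L) →
    Act (dts L.toFinset ∪ univ.image v) e →
    T3 (-4) L e (v 0) (v 1) (v 2) (v 3) (v 4) (v 5) +
    T3 (-4) L e (v 0) (v 1) (v 2) (v 4) (v 3) (v 5) +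
    T3 (-4) L e (v 0) (v 1) (v 2) (v 5) (v 3) (v 4) +
    (T3 (-4) L e (v 0) (v 2) (v 1) (v 3) (v 4) (v 5) +
    T3 (-4) L e (v 0) (v 2) (v 1) (v 4) (v 3) (v 5) +
    T3 (-4) L e (v 0) (v 2) (v 1) (v 5) (v 3) (v 4)) +
    (T3 (-4) L e (v 0) (v 3) (v 1) (v 2) (v 4) (v 5) +
    T3 (-4) L e (v 0) (v 3) (v 1) (v 4) (v 2) (v 5) +
    T3 (-4) L e (v 0) (v 3) (v 1) (v 5) (v 2) (v 4)) +
    (T3 (-4) L e (v 0) (v 4) (v 1) (v 2) (v 3) (v 5) +
    T3 (-4) L e (v 0) (v 4) (v 1) (v 3) (v 2) (v 5) +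
    T3 (-4) L e (v 0) (v 4) (v 1) (v 5) (v 2) (v 3)) +
    (T3 (-4) L e (v 0) (v 5) (v 1) (v 2) (v 3) (v 4) +
    T3 (-4) L e (v 0) (v 5) (v 1) (v 3) (v 2) (v 4) +
    T3 (-4) L e (v 0) (v 5) (v 1) (v 4) (v 2) (v 3)) = 0 := by
  induction L with
  | nil =>
    intro e v _ hv _ hact
    have hA : ∀ z, z ∈ dts ([] : List V).toFinset ∪ univ.image v ↔ ∃ k, z = v k := by
      intro z
      simp [dts, eq_comm]
    rw [D1_base (-4) e _ v hv hact hA 0 1 2 3 4 5 (by decide),
      D1_base (-4) e _ v hv hact hA 0 2 1 3 4 5 (by decide),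
      D1_base (-4) e _ v hv hact hA 0 3 1 2 4 5 (by decide),
      D1_base (-4) e _ v hv hact hA 0 4 1 2 3 5 (by decide),
      D1_base (-4) e _ v hv hact hA 0 5 1 2 3 4 (by decide)]
    have h0 : e (v 0) ≠ v 0 := (hact.2 _).2 ((hA _).2 ⟨0, rfl⟩)
    have h1 : e (v 0) ∈ dts ([] : List V).toFinset ∪ univ.image v := by
      rw [← hact.2, hact.1]
      exact h0.symm
    rw [hA] at h1
    obtain ⟨k, hk⟩ := h1
    have hl : ∀ j, lp e (v 0) (v j) = if k = j then 1 else 0 := by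
      intro j
      unfold lp
      rw [hk]
      by_cases hkj : k = j
      · rw [if_pos hkj, if_pos (by rw [hkj])]
      · rw [if_neg hkj, if_neg (fun h => hkj (hv h))]
    have hk0 : k ≠ 0 := by
      rintro rfl
      exact h0 hk
    rw [hl, hl, hl, hl, hl]
    clear hl hk
    revert hk0
    revert k
    decide
  | cons u L ih =>
    intro e v hn hv hvL hact
    rw [List.nodup_cons] at hn
    have hvu : ∀ k, (v k).1 ≠ u := by
      intro k h
      apply hvL k
      rw [h]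
      exact List.mem_cons_self
    have hvL' : ∀ k, (v k).1 ∉ L := fun k h => hvL k (List.mem_cons_of_mem _ h)
    have hve : ∀ k, e (v k) ≠ v k := by
      intro k
      rw [hact.2]
      exact Finset.mem_union_right _ (Finset.mem_image_of_mem _ (Finset.mem_univ k))
    have hmem : ∀ i, (u, i) ∈ dts (u :: L).toFinset ∪ univ.image v := by
      intro i
      apply Finset.mem_union_left
      simp [dts]
    have hue : ∀ i, e (u, i) ≠ (u, i) := fun i => (hact.2 _).2 (hmem i)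
    have hS := fun (i0 i1 i2 i3 i4 i5 : Fin 6) (hi : [i0, i1, i2, i3, i4, i5].Nodup) =>
      D1_step (-4) u L e hact.1 hue v hv hvu hve i0 i1 i2 i3 i4 i5 hi
    rw [hS 0 1 2 3 4 5 (by decide), hS 0 1 2 4 3 5 (by decide), hS 0 1 2 5 3 4 (by decide),
      hS 0 2 1 3 4 5 (by decide), hS 0 2 1 4 3 5 (by decide), hS 0 2 1 5 3 4 (by decide),
      hS 0 3 1 2 4 5 (by decide), hS 0 3 1 4 2 5 (by decide), hS 0 3 1 5 2 4 (by decide),
      hS 0 4 1 2 3 5 (by decide), hS 0 4 1 3 2 5 (by decide), hS 0 4 1 5 2 3 (by decide),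
      hS 0 5 1 2 3 4 (by decide), hS 0 5 1 3 2 4 (by decide), hS 0 5 1 4 2 3 (by decide)]
    simp only [← Finset.sum_add_distrib, ← mul_add]
    refine Finset.sum_eq_zero (fun t _ => ?_)
    have hset : ((dts (u :: L).toFinset ∪ univ.image v).filter fun z => z.1 ≠ u) =
        dts L.toFinset ∪ univ.image v := by
      ext z
      simp only [dts, Finset.mem_filter, Finset.mem_union, Finset.mem_product, List.mem_toFinset,
        List.mem_cons, Finset.mem_univ, and_true, Finset.mem_image, true_and, ne_eq]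
      constructor
      · rintro ⟨(h1 | h1) | h1, h2⟩
        · exact absurd h1 h2
        · exact Or.inl h1
        · exact Or.inr h1
      · rintro (h1 | h1)
        · refine ⟨Or.inl (Or.inr h1), ?_⟩
          rintro rfl
          exact hn.1 h1
        · refine ⟨Or.inr h1, ?_⟩
          obtain ⟨k, rfl⟩ := h1
          exact hvu k
    have hact2 := D1_sm_act _ e hact u hmem t
    rw [hset] at hact2
    have h15 := ih (sm e u t) v hn.2 hv hvL' hact2
    rw [h15, mul_zero]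

end

theorem D1 : D1_stmt := by
  intro V _ L e a b c d f g hL hnd hz hact
  set v : Fin 6 → V × Fin 4 := ![a, b, c, d, f, g] with hvdef
  have hv : Function.Injective v := by
    rw [← List.nodup_ofFn]
    exact hnd
  have hvL : ∀ k, (v k).1 ∉ L := by
    intro k
    apply hz
    fin_cases k <;> simp [hvdef]
  have himg : univ.image v = {a, b, c, d, f, g} := by
    ext z
    simp only [Finset.mem_image, Finset.mem_univ, true_and, Finset.mem_insert,
      Finset.mem_singleton]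
    constructor
    · rintro ⟨k, rfl⟩
      fin_cases k <;> simp [hvdef]
    · rintro (h | h | h | h | h | h)
      · exact ⟨0, h.symm⟩
      · exact ⟨1, h.symm⟩
      · exact ⟨2, h.symm⟩
      · exact ⟨3, h.symm⟩
      · exact ⟨4, h.symm⟩
      · exact ⟨5, h.symm⟩
  have h := D1_main L e v hL hv hvL (by rw [himg]; exact hact)
  exact h

end CT
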