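import Pool.Agent.helper56.CT.SpecB

namespace CT
open Finset

section
variable {N : Type} [Fintype N] [DecidableEq N] (H : SimpleGraph N)

theorem E1_inc (a : H.edgeSet) (p q : N) (hpq : p ≠ q) (ha : (a : Sym2 N) = s(p, q))
    (φ : N → ZMod 2) : ∑ n, incH H a n * φ n = φ p + φ q := by
  have h1 : ∀ n, incH H a n * φ n = if n = p then φ p else if n = q then φ q else 0 := by
    intro n
    unfold incH
    rw [ha]
    by_cases hp : n = p
    · rw [if_pos hp, if_pos (by rw [hp]; exact Sym2.mem_mk_left _ _), one_mul, hp]
    · by_cases hq : n = q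
      · rw [if_neg hp, if_pos hq, if_pos (by rw [hq]; exact Sym2.mem_mk_right _ _), one_mul, hq]
      · rw [if_neg hp, if_neg hq, if_neg, zero_mul]
        intro h
        rcases Sym2.mem_iff.1 h with h | h
        · exact hp h
        · exact hq h
  rw [Finset.sum_congr rfl (fun n _ => h1 n), ← Finset.sum_erase_add _ _ (Finset.mem_univ p),
    if_pos rfl, add_comm]
  congr 1
  rw [Finset.sum_congr rfl (g := fun n => if n = q then φ q else 0)]
  · rw [Finset.sum_ite_eq' _ q, if_pos]
    exact Finset.mem_erase.2 ⟨hpq.symm, Finset.mem_univ _⟩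
  · intro n hn
    rw [if_neg (Finset.ne_of_mem_erase hn)]

omit [Fintype N] in
theorem E1_two [Fintype H.edgeSet] : TwoEnds (incH H) := by
  intro a
  obtain ⟨a, ha⟩ := a
  induction a using Sym2.ind with
  | _ p q =>
    have hpq : p ≠ q := by
      have : H.Adj p q := ha
      exact this.ne
    refine ⟨p, q, hpq, ?_⟩
    intro k
    unfold incH
    show (if k ∈ (s(p, q) : Sym2 N) then (1 : ZMod 2) else 0) = _
    by_cases hk : k = p ∨ k = q
    · rw [if_pos hk, if_pos (Sym2.mem_iff.2 hk)]
    · rw [if_neg hk, if_neg (fun h => hk (Sym2.mem_iff.1 h))]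

end

section
variable {N : Type} [Fintype N] [DecidableEq N] (H : SimpleGraph N) (T : Finset H.edgeSet)

/-- the graph of T -/
def E1_F : SimpleGraph N :=
  SimpleGraph.fromEdgeSet ((fun a : H.edgeSet => (a : Sym2 N)) '' (T : Set H.edgeSet))

omit [Fintype N] [DecidableEq N] in
theorem E1_adj (p q : N) : (E1_F H T).Adj p q ↔ ∃ a ∈ T, (a : Sym2 N) = s(p, q) := by
  unfold E1_F
  rw [SimpleGraph.fromEdgeSet_adj]
  constructor
  · rintro ⟨⟨a, ha, h⟩, _⟩
    exact ⟨a, ha, h⟩
  · rintro ⟨a, ha, h⟩
    refine ⟨⟨a, ha, h⟩, ?_⟩
    have h2 := a.2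
    rw [h] at h2
    have h3 : H.Adj p q := h2
    exact h3.ne

omit [Fintype N] [DecidableEq N] in
theorem E1_edge : (E1_F H T).edgeSet = (fun a : H.edgeSet => (a : Sym2 N)) '' (T : Set H.edgeSet) := by
  ext e
  induction e using Sym2.ind with
  | _ p q =>
    rw [SimpleGraph.mem_edgeSet, E1_adj]
    constructor
    · rintro ⟨a, ha, h⟩
      exact ⟨a, ha, h⟩
    · rintro ⟨a, ha, h⟩
      exact ⟨a, ha, h⟩

omit [Fintype N] [DecidableEq N] in
theorem E1_card : Nat.card (E1_F H T).edgeSet = T.card := by
  rw [E1_edge, Nat.card_image_of_injective Subtype.val_injective]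
  simp

omit [Fintype N] [DecidableEq N] in
theorem E1_const (G : SimpleGraph N) (φ : N → ZMod 2) (h : ∀ p q, G.Adj p q → φ p = φ q) (p q : N)
    (hr : G.Reachable p q) : φ p = φ q := by
  obtain ⟨w⟩ := hr
  induction w with
  | nil => rfl
  | cons hadj _ ih => exact (h _ _ hadj).trans ih

end

theorem E1 (hA3a : A3a_stmt) (hA3c : A3c_stmt) : E1_stmt := by
  classical
  intro N _ _ _ H _ T
  have hadd : ∀ x y : ZMod 2, x + y = 0 → x = y := by
    intro x y h
    have h1 := eq_neg_of_add_eq_zero_left h
    rw [h1, ZMod.neg_eq_self_mod_two]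
  have hself : ∀ x : ZMod 2, x + x = 0 := fun x => CharTwo.add_self_eq_zero x
  constructor
  · intro hT
    have hT' : (E1_F H T).IsTree := hT
    refine ⟨?_, ?_⟩
    · intro y hy hk
      funext a
      by_contra hya
      have ha : a ∈ T := by
        by_contra h
        exact hya (hy a h)
      obtain ⟨p, q, hpq⟩ : ∃ p q, (a : Sym2 N) = s(p, q) := by
        have : ∀ e : Sym2 N, ∃ p q, e = s(p, q) := by
          intro e
          induction e using Sym2.ind with
          | _ p q => exact ⟨p, q, rfl⟩
        exact this _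
      have hadj : (E1_F H T).Adj p q := (E1_adj H T p q).2 ⟨a, ha, hpq⟩
      have hbr := SimpleGraph.isAcyclic_iff_forall_adj_isBridge.1 hT'.isAcyclic hadj
      rw [SimpleGraph.isBridge_iff] at hbr
      set U : N → ZMod 2 := fun n =>
        if ((E1_F H T).deleteEdges {s(p, q)}).Reachable p n then 1 else 0 with hU
      have hUp : U p = 1 := by
        simp only [hU]
        rw [if_pos (SimpleGraph.Reachable.refl _)]
      have hUq : U q = 0 := by
        simp only [hU]
        rw [if_neg hbr]
      have h0 : ∑ n, U n * ∑ b, incH H b n * y b = 0 := by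
        refine Finset.sum_eq_zero (fun n _ => ?_)
        rw [hk n, mul_zero]
      have h1 : ∑ n, U n * ∑ b, incH H b n * y b = ∑ b, y b * ∑ n, incH H b n * U n := by
        simp_rw [Finset.mul_sum]
        rw [Finset.sum_comm]
        refine Finset.sum_congr rfl (fun b _ => Finset.sum_congr rfl (fun n _ => ?_))
        ring
      have h2 : ∑ b, y b * ∑ n, incH H b n * U n = y a := by
        rw [Finset.sum_eq_single a]
        · rw [E1_inc H a p q hadj.ne hpq, hUp, hUq, add_zero, mul_one]
        · intro b _ hba
          by_cases hb : b ∈ T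
          · obtain ⟨m, k, hmk⟩ : ∃ p q, (b : Sym2 N) = s(p, q) := by
              have : ∀ e : Sym2 N, ∃ p q, e = s(p, q) := by
                intro e
                induction e using Sym2.ind with
                | _ p q => exact ⟨p, q, rfl⟩
              exact this _
            have hadj' : (E1_F H T).Adj m k := (E1_adj H T m k).2 ⟨b, hb, hmk⟩
            have hadj2 : ((E1_F H T).deleteEdges {s(p, q)}).Adj m k := by
              rw [SimpleGraph.deleteEdges_adj]
              refine ⟨hadj', ?_⟩
              intro hmem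
              apply hba
              apply Subtype.ext
              rw [hmk, hpq]
              exact hmem
            have hUmk : U m = U k := by
              simp only [hU]
              by_cases hm : ((E1_F H T).deleteEdges {s(p, q)}).Reachable p m
              · rw [if_pos hm, if_pos (hm.trans hadj2.reachable)]
              · rw [if_neg hm, if_neg (fun h => hm (h.trans hadj2.symm.reachable))]
            rw [E1_inc H b m k hadj'.ne hmk, hUmk, hself, mul_zero]
          · rw [hy b hb, zero_mul]
        · intro h
          exact absurd (Finset.mem_univ a) h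
      rw [h1, h2] at h0
      exact hya h0
    · intro φ hφ m n
      refine E1_const (E1_F H T) φ ?_ m n (hT'.connected.preconnected m n)
      intro p q hpq
      obtain ⟨a, ha, h⟩ := (E1_adj H T p q).1 hpq
      have h1 := hφ a ha
      rw [E1_inc H a p q hpq.ne h] at h1
      exact hadd _ _ h1
  · intro hT
    show (E1_F H T).IsTree
    rw [SimpleGraph.isTree_iff_connected_and_card]
    obtain ⟨n0⟩ := ‹Nonempty N›
    refine ⟨?_, ?_⟩
    · rw [SimpleGraph.connected_iff]
      refine ⟨?_, ⟨n0⟩⟩
      intro p q
      by_contra hpq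
      have h1 := hT.2 (fun n => if (E1_F H T).Reachable p n then 1 else 0) ?_ p q
      · rw [if_pos (SimpleGraph.Reachable.refl _), if_neg hpq] at h1
        exact absurd h1 (by decide)
      · intro a ha
        obtain ⟨m, k, hmk⟩ : ∃ p q, (a : Sym2 N) = s(p, q) := by
          have : ∀ e : Sym2 N, ∃ p q, e = s(p, q) := by
            intro e
            induction e using Sym2.ind with
            | _ p q => exact ⟨p, q, rfl⟩
          exact this _
        have hadj' : (E1_F H T).Adj m k := (E1_adj H T m k).2 ⟨a, ha, hmk⟩
        rw [E1_inc H a m k hadj'.ne hmk]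
        by_cases hm : (E1_F H T).Reachable p m
        · rw [if_pos hm, if_pos (hm.trans hadj'.reachable)]
          exact hself 1
        · rw [if_neg hm, if_neg (fun h => hm (h.trans hadj'.symm.reachable))]
          exact hself 0
    · have h1 := (hA3a H.edgeSet N (incH H) (fun _ => n0) T 0 (E1_two H)).2.2 n0
      have h2 := (hA3c H.edgeSet N (incH H) T n0 n0).1 (h1.1 hT)
      rw [E1_card, Nat.card_eq_fintype_card]
      exact h2

end CT
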