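import Pool.Agent.helper56.CT.SpecB

namespace CT
open Finset

section tr
variable {E N E2 N2 : Type} [Fintype E] [Fintype N] [DecidableEq E] [DecidableEq N]
  [Fintype E2] [Fintype N2] [DecidableEq E2] [DecidableEq N2]

omit [DecidableEq E] [DecidableEq N] [DecidableEq E2] [DecidableEq N2] in
theorem E2_LT (f : E ≃ E2) (h : N ≃ N2) (inc : E → N → ZMod 2) (inc2 : E2 → N2 → ZMod 2)
    (hinc : ∀ a n, inc2 (f a) (h n) = inc a n) (T : Finset E) (hT : LT inc T) :
    LT inc2 (T.map f.toEmbedding) := by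
  refine ⟨?_, ?_⟩
  · intro y hy hk
    have h1 : (fun a => y (f a)) = 0 := by
      refine hT.1 _ ?_ ?_
      · intro a ha
        refine hy (f a) ?_
        intro hc
        apply ha
        rw [Finset.mem_map] at hc
        obtain ⟨b, hb, hbe⟩ := hc
        have : b = a := f.injective hbe
        rwa [← this]
      · intro n
        rw [← hk (h n), ← Equiv.sum_comp f]
        refine Finset.sum_congr rfl (fun a _ => ?_)
        rw [hinc]
    funext b
    have h2 := congrFun h1 (f.symm b)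
    simpa using h2
  · intro φ hφ m n
    have h1 := hT.2 (fun k => φ (h k)) ?_ (h.symm m) (h.symm n)
    · simpa using h1
    · intro a ha
      have h2 := hφ (f a) (Finset.mem_map_of_mem _ ha)
      rw [← h2, ← Equiv.sum_comp h]
      refine Finset.sum_congr rfl (fun k _ => ?_)
      rw [hinc]

omit [DecidableEq E] [DecidableEq N] [DecidableEq E2] [DecidableEq N2] in
theorem E2_LTiff (f : E ≃ E2) (h : N ≃ N2) (inc : E → N → ZMod 2) (inc2 : E2 → N2 → ZMod 2)
    (hinc : ∀ a n, inc2 (f a) (h n) = inc a n) (T : Finset E) :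
    LT inc2 (T.map f.toEmbedding) ↔ LT inc T := by
  refine ⟨fun hT => ?_, E2_LT f h inc inc2 hinc T⟩
  have h1 := E2_LT f.symm h.symm inc2 inc (by
    intro a n
    rw [← hinc, f.apply_symm_apply, h.apply_symm_apply]) _ hT
  rw [Finset.map_map] at h1
  have h2 : f.toEmbedding.trans f.symm.toEmbedding = Function.Embedding.refl E := by
    ext a
    simp
  rw [h2, Finset.map_refl] at h1
  exact h1

theorem E2_compl (f : E ≃ E2) (T : Finset E) : (T.map f.toEmbedding)ᶜ = Tᶜ.map f.toEmbedding := by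
  ext b
  rw [Finset.mem_compl, Finset.mem_map, Finset.mem_map]
  constructor
  · intro h
    refine ⟨f.symm b, ?_, by simp⟩
    rw [Finset.mem_compl]
    intro hc
    exact h ⟨f.symm b, hc, by simp⟩
  · rintro ⟨a, ha, rfl⟩ ⟨a', ha', h⟩
    rw [Finset.mem_compl] at ha
    have : a' = a := f.injective h
    rw [this] at ha'
    exact ha ha'

omit [DecidableEq N] [DecidableEq N2] in
theorem E2_Psi (f : E ≃ E2) (h : N ≃ N2) (inc : E → N → ZMod 2) (inc2 : E2 → N2 → ZMod 2)
    (hinc : ∀ a n, inc2 (f a) (h n) = inc a n) (α : E2 → ZMod 2) :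
    PsiLT inc2 α = PsiLT inc (fun a => α (f a)) := by
  classical
  unfold PsiLT
  symm
  refine Finset.sum_bij (fun T _ => T.map f.toEmbedding) ?_ ?_ ?_ ?_
  · intro T hT
    rw [Finset.mem_filter] at hT ⊢
    exact ⟨Finset.mem_univ _, (E2_LTiff f h inc inc2 hinc T).2 hT.2⟩
  · intro T _ T' _ hTT
    exact Finset.map_injective _ hTT
  · intro T2 hT2
    refine ⟨T2.map f.symm.toEmbedding, ?_, ?_⟩
    · rw [Finset.mem_filter] at hT2 ⊢
      exact ⟨Finset.mem_univ _, (E2_LTiff f.symm h.symm inc2 inc (by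
        intro a n
        rw [← hinc, f.apply_symm_apply, h.apply_symm_apply]) T2).2 hT2.2⟩
    · rw [Finset.map_map]
      have h2 : f.symm.toEmbedding.trans f.toEmbedding = Function.Embedding.refl E2 := by
        ext a
        simp
      rw [h2, Finset.map_refl]
  · intro T _
    rw [E2_compl, Finset.prod_map]
    rfl

omit [DecidableEq N] [DecidableEq N2] in
theorem E2_c1 (f : E ≃ E2) (h : N ≃ N2) (inc : E → N → ZMod 2) (inc2 : E2 → N2 → ZMod 2)
    (hinc : ∀ a n, inc2 (f a) (h n) = inc a n) :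
    ((univ : Finset (E2 → ZMod 2)).filter fun α => PsiLT inc2 α = 1).card =
      ((univ : Finset (E → ZMod 2)).filter fun α => PsiLT inc α = 1).card := by
  refine Finset.card_bij (fun α _ => fun a => α (f a)) ?_ ?_ ?_
  · intro α hα
    rw [Finset.mem_filter] at hα ⊢
    refine ⟨Finset.mem_univ _, ?_⟩
    rw [← E2_Psi f h inc inc2 hinc]
    exact hα.2
  · intro α _ β _ hab
    funext b
    have := congrFun hab (f.symm b)
    simpa using this
  · intro α hα
    refine ⟨fun b => α (f.symm b), ?_, ?_⟩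
    · rw [Finset.mem_filter] at hα ⊢
      refine ⟨Finset.mem_univ _, ?_⟩
      rw [E2_Psi f h inc inc2 hinc]
      simpa using hα.2
    · funext a
      simp

omit [DecidableEq N] [DecidableEq N2] in
theorem E2_c2 (f : E ≃ E2) (h : N ≃ N2) (inc : E → N → ZMod 2) (inc2 : E2 → N2 → ZMod 2)
    (hinc : ∀ a n, inc2 (f a) (h n) = inc a n)
    [DecidablePred fun T : Finset E2 => LT inc2 T ∧ LT inc2 Tᶜ]
    [DecidablePred fun T : Finset E => LT inc T ∧ LT inc Tᶜ] :
    ((univ : Finset (Finset E2)).filter fun T => LT inc2 T ∧ LT inc2 Tᶜ).card =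
      ((univ : Finset (Finset E)).filter fun T => LT inc T ∧ LT inc Tᶜ).card := by
  symm
  refine Finset.card_bij (fun T _ => T.map f.toEmbedding) ?_ ?_ ?_
  · intro T hT
    rw [Finset.mem_filter] at hT ⊢
    refine ⟨Finset.mem_univ _, (E2_LTiff f h inc inc2 hinc T).2 hT.2.1, ?_⟩
    rw [E2_compl]
    exact (E2_LTiff f h inc inc2 hinc _).2 hT.2.2
  · intro T _ T' _ hTT
    exact Finset.map_injective _ hTT
  · intro T2 hT2
    have hinc' : ∀ a n, inc (f.symm a) (h.symm n) = inc2 a n := by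
      intro a n
      rw [← hinc, f.apply_symm_apply, h.apply_symm_apply]
    refine ⟨T2.map f.symm.toEmbedding, ?_, ?_⟩
    · rw [Finset.mem_filter] at hT2 ⊢
      refine ⟨Finset.mem_univ _, (E2_LTiff f.symm h.symm inc2 inc hinc' T2).2 hT2.2.1, ?_⟩
      rw [E2_compl]
      exact (E2_LTiff f.symm h.symm inc2 inc hinc' _).2 hT2.2.2
    · rw [Finset.map_map]
      have h2 : f.symm.toEmbedding.trans f.toEmbedding = Function.Embedding.refl E2 := by
        ext a
        simp
      rw [h2, Finset.map_refl]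

end tr

section ct
variable {V : Type} [Fintype V] [DecidableEq V]

theorem E2_nb (G : SimpleGraph V) [DecidableRel G.Adj] (v w : V) (hG : G.IsRegularOfDegree 4)
    (hvw : G.Adj v w) : ∃ a : Fin 3 → V, Function.Injective a ∧ (∀ i, a i ≠ v) ∧
      (∀ i, G.Adj w (a i)) ∧ ∀ x, x ≠ v → G.Adj w x → ∃ i, a i = x := by
  have h1 : (G.neighborFinset w).card = 4 := hG w
  have h2 : ((G.neighborFinset w).erase v).card = 3 := by
    rw [Finset.card_erase_of_mem, h1]
    rw [SimpleGraph.mem_neighborFinset]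
    exact hvw.symm
  have e := Fintype.equivFinOfCardEq (α := ((G.neighborFinset w).erase v : Finset V)) (n := 3)
    (by rw [Fintype.card_coe, h2])
  have hmem : ∀ i, G.Adj w (e.symm i : V) ∧ (e.symm i : V) ≠ v := by
    intro i
    have := (e.symm i).2
    rw [Finset.mem_erase, SimpleGraph.mem_neighborFinset] at this
    exact ⟨this.2, this.1⟩
  refine ⟨fun i => (e.symm i : V), ?_, fun i => (hmem i).2, fun i => (hmem i).1, ?_⟩
  · intro i j hij
    exact e.symm.injective (Subtype.ext hij)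
  · intro x hx hwx
    refine ⟨e ⟨x, ?_⟩, ?_⟩
    · rw [Finset.mem_erase, SimpleGraph.mem_neighborFinset]
      exact ⟨hx, hwx⟩
    · simp

/-- the edge map -/
def E2_f (G : SimpleGraph V) (v : V) (w : ({v}ᶜ : Set V)) (a : Fin 3 → ({v}ᶜ : Set V))
    (ha : ∀ i, (G.induce ({v}ᶜ : Set V)).Adj w (a i)) :
    {e : (G.induce ({v}ᶜ : Set V)).edgeSet // w ∉ (e : Sym2 ({v}ᶜ : Set V))} ⊕ Fin 3 →
      (G.induce ({v}ᶜ : Set V)).edgeSet
  | Sum.inl e => e.1
  | Sum.inr i => ⟨s(w, a i), ha i⟩

omit [Fintype V] in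
theorem E2_fbij (G : SimpleGraph V) (v : V) (w : ({v}ᶜ : Set V)) (a : Fin 3 → ({v}ᶜ : Set V))
    (ha : ∀ i, (G.induce ({v}ᶜ : Set V)).Adj w (a i)) (hinj : Function.Injective a)
    (hsur : ∀ x, (G.induce ({v}ᶜ : Set V)).Adj w x → ∃ i, a i = x) :
    Function.Bijective (E2_f G v w a ha) := by
  constructor
  · rintro (e | i) (e' | j) h
    · have : e = e' := Subtype.ext h
      rw [this]
    · exfalso
      have h1 : e.1 = ⟨s(w, a j), ha j⟩ := h
      apply e.2
      rw [h1]
      exact Sym2.mem_mk_left _ _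
    · exfalso
      have h1 : (⟨s(w, a i), ha i⟩ : (G.induce ({v}ᶜ : Set V)).edgeSet) = e'.1 := h
      apply e'.2
      rw [← h1]
      exact Sym2.mem_mk_left _ _
    · have h1 : s(w, a i) = s(w, a j) := congrArg Subtype.val h
      have h2 : a i = a j := by
        rw [Sym2.eq_iff] at h1
        rcases h1 with h1 | h1
        · exact h1.2
        · rw [← h1.1, h1.2]
      rw [hinj h2]
  · intro b
    by_cases hb : w ∈ (b : Sym2 ({v}ᶜ : Set V))
    · obtain ⟨x, hx⟩ := Sym2.mem_iff_exists.1 hb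
      have hadj : (G.induce ({v}ᶜ : Set V)).Adj w x := by
        have := b.2
        rw [hx] at this
        exact this
      obtain ⟨i, hi⟩ := hsur x hadj
      refine ⟨Sum.inr i, ?_⟩
      apply Subtype.ext
      show s(w, a i) = _
      rw [hi, hx]
    · exact ⟨Sum.inl ⟨b, hb⟩, rfl⟩

theorem E2_cardE0 (G : SimpleGraph V) [DecidableRel G.Adj] (v : V) :
    Nat.card (G.induce ({v}ᶜ : Set V)).edgeSet = #G.edgeFinset - G.degree v := by
  rw [← SimpleGraph.card_edgeFinset_deleteIncidenceSet,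
    ← G.card_edgeFinset_induce_compl_singleton v, SimpleGraph.edgeFinset_card,
    Nat.card_eq_fintype_card]

theorem E2_cardE (G : SimpleGraph V) [DecidableRel G.Adj] (v : V) (hG : G.IsRegularOfDegree 4)
    (hV : 6 ≤ Fintype.card V) [Fintype (G.induce ({v}ᶜ : Set V)).edgeSet] :
    Fintype.card (G.induce ({v}ᶜ : Set V)).edgeSet = 2 * (Fintype.card V - 2) := by
  have h1 := E2_cardE0 G v
  rw [hG v, Nat.card_eq_fintype_card] at h1
  have h2 := G.sum_degrees_eq_twice_card_edges
  rw [Finset.sum_congr rfl (fun x _ => hG x), Finset.sum_const, Finset.card_univ,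
    smul_eq_mul] at h2
  omega

theorem E2_main (hA4 : A4_stmt) (G : SimpleGraph V) [DecidableRel G.Adj] (v : V)
    (hG : G.IsRegularOfDegree 4) (hV : 6 ≤ Fintype.card V)
    [Fintype (G.induce ({v}ᶜ : Set V)).edgeSet]
    [DecidableEq (G.induce ({v}ᶜ : Set V)).edgeSet]
    [Fintype ({v}ᶜ : Set V)] [DecidableEq ({v}ᶜ : Set V)]
    [DecidablePred fun T : Finset (G.induce ({v}ᶜ : Set V)).edgeSet =>
        LT (incH (G.induce ({v}ᶜ : Set V))) T ∧ LT (incH (G.induce ({v}ᶜ : Set V))) Tᶜ] :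
    8 ∣ (((univ : Finset ((G.induce ({v}ᶜ : Set V)).edgeSet → ZMod 2)).filter fun α =>
        PsiLT (incH (G.induce ({v}ᶜ : Set V))) α = 1).card : ℤ)
      - (((univ : Finset (Finset (G.induce ({v}ᶜ : Set V)).edgeSet)).filter fun T =>
        LT (incH (G.induce ({v}ᶜ : Set V))) T ∧ LT (incH (G.induce ({v}ᶜ : Set V))) Tᶜ).card : ℤ)
      := by
  have hdeg : 0 < G.degree v := by
    rw [hG v]
    norm_num
  obtain ⟨w, hvw⟩ := (G.degree_pos_iff_exists_adj v).1 hdeg
  obtain ⟨a, hinj, hav, hwa, hsur⟩ := E2_nb G v w hG hvw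
  obtain ⟨w', hw'⟩ : ∃ w' : ({v}ᶜ : Set V), (w' : V) = w := ⟨⟨w, hvw.ne'⟩, rfl⟩
  obtain ⟨a', ha'⟩ : ∃ a' : Fin 3 → ({v}ᶜ : Set V), ∀ i, (a' i : V) = a i :=
    ⟨fun i => ⟨a i, hav i⟩, fun i => rfl⟩
  have hadj : ∀ i, (G.induce ({v}ᶜ : Set V)).Adj w' (a' i) := by
    intro i
    show G.Adj (w' : V) (a' i : V)
    rw [hw', ha']
    exact hwa i
  have hinj' : Function.Injective a' := by
    intro i j hij
    apply hinj
    rw [← ha', ← ha', hij]
  have hsur' : ∀ x, (G.induce ({v}ᶜ : Set V)).Adj w' x → ∃ i, a' i = x := by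
    intro x hx
    have h1 : G.Adj (w' : V) (x : V) := hx
    rw [hw'] at h1
    obtain ⟨i, hi⟩ := hsur x x.2 h1
    exact ⟨i, Subtype.ext (by rw [ha', hi])⟩
  have hne : ∀ i, a' i ≠ w' := fun i => (hadj i).ne'
  have hcV : Fintype.card ({v}ᶜ : Set V) = Fintype.card V - 1 := by
    rw [Fintype.card_compl_set, Set.card_singleton]
  have hcN : Fintype.card {n : ({v}ᶜ : Set V) // n ≠ w'} = Fintype.card V - 2 := by
    rw [Fintype.card_subtype_compl, Fintype.card_subtype_eq, hcV]
    omega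
  have hbij := E2_fbij G v w' a' hadj hinj' hsur'
  classical
  have hcE : Fintype.card {e : (G.induce ({v}ᶜ : Set V)).edgeSet //
      w' ∉ (e : Sym2 ({v}ᶜ : Set V))} + 3 = 2 * (Fintype.card V - 2) := by
    rw [← E2_cardE G v hG hV, ← Fintype.card_of_bijective hbij, Fintype.card_sum,
      Fintype.card_fin]
  have h8 := hA4 {e : (G.induce ({v}ᶜ : Set V)).edgeSet // w' ∉ (e : Sym2 ({v}ᶜ : Set V))}
    {n : ({v}ᶜ : Set V) // n ≠ w'}
    (fun e n => if n.1 ∈ (e.1 : Sym2 ({v}ᶜ : Set V)) then 1 else 0)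
    (fun i => ⟨a' i, hne i⟩) ?_ ?_ ?_ ?_
  · have hinc : ∀ (b : {e : (G.induce ({v}ᶜ : Set V)).edgeSet //
        w' ∉ (e : Sym2 ({v}ᶜ : Set V))} ⊕ Fin 3) (n : Option {n : ({v}ᶜ : Set V) // n ≠ w'}),
        incH (G.induce ({v}ᶜ : Set V)) (Equiv.ofBijective _ hbij b)
          (Equiv.optionSubtypeNe w' n) = incF
      (fun (e : {e : (G.induce ({v}ᶜ : Set V)).edgeSet // w' ∉ (e : Sym2 ({v}ᶜ : Set V))})
        (n : {n : ({v}ᶜ : Set V) // n ≠ w'}) =>
          if n.1 ∈ (e.1 : Sym2 ({v}ᶜ : Set V)) then (1 : ZMod 2) else 0)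
      (fun i => ⟨a' i, hne i⟩) b n := by
      rintro (e | i) (_ | n)
      · show (if w' ∈ (e.1 : Sym2 ({v}ᶜ : Set V)) then (1 : ZMod 2) else 0) = 0
        rw [if_neg e.2]
      · rfl
      · show (if w' ∈ (s(w', a' i) : Sym2 ({v}ᶜ : Set V)) then (1 : ZMod 2) else 0) = 1
        rw [if_pos (Sym2.mem_mk_left _ _)]
      · show (if n.1 ∈ (s(w', a' i) : Sym2 ({v}ᶜ : Set V)) then (1 : ZMod 2) else 0) =
          if n = ⟨a' i, hne i⟩ then 1 else 0
        by_cases hn : n = ⟨a' i, hne i⟩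
        · rw [if_pos hn, if_pos]
          rw [hn]
          exact Sym2.mem_mk_right _ _
        · rw [if_neg hn, if_neg]
          intro hc
          rcases Sym2.mem_iff.1 hc with hc | hc
          · exact n.2 hc
          · exact hn (Subtype.ext hc)
    rw [E2_c1 _ _ _ _ hinc, E2_c2 _ _ _ _ hinc]
    exact h8
  · intro e
    obtain ⟨e, he⟩ := e
    obtain ⟨e, hee⟩ := e
    induction e using Sym2.ind with
    | _ p q =>
      have hp : p ≠ w' := by
        intro h
        apply he
        rw [← h]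
        exact Sym2.mem_mk_left _ _
      have hq : q ≠ w' := by
        intro h
        apply he
        rw [← h]
        exact Sym2.mem_mk_right _ _
      have hpq : p ≠ q := by
        have : (G.induce ({v}ᶜ : Set V)).Adj p q := hee
        exact this.ne
      refine ⟨⟨p, hp⟩, ⟨q, hq⟩, ?_, ?_⟩
      · intro h
        exact hpq (congrArg Subtype.val h)
      · intro k
        show (if k.1 ∈ (s(p, q) : Sym2 ({v}ᶜ : Set V)) then (1 : ZMod 2) else 0) = _
        by_cases hk : k = ⟨p, hp⟩ ∨ k = ⟨q, hq⟩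
        · rw [if_pos hk, if_pos]
          rcases hk with hk | hk
          · rw [hk]
            exact Sym2.mem_mk_left _ _
          · rw [hk]
            exact Sym2.mem_mk_right _ _
        · rw [if_neg hk, if_neg]
          intro hc
          apply hk
          rcases Sym2.mem_iff.1 hc with hc | hc
          · left
            exact Subtype.ext hc
          · right
            exact Subtype.ext hc
  · intro i j hij
    exact hinj' (congrArg Subtype.val hij)
  · rw [hcE, hcN]
  · rw [hcN]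
    omega

end ct

theorem E2 (hA4 : A4_stmt) : E2_stmt := by
  classical
  intro V _ _ G _ v hG hV
  exact E2_main hA4 G v hG hV

end CT
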